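import Pool.Agent.Helper45.U4.St1

/-!
# Project U4, module NBX: adjacent generators are neighbours
-/

set_option autoImplicit false

open Module Classical
open scoped LinearAlgebra.Projectivization

namespace Pool.Agent.Helper16.U4

open Pool.Agent.Helper45.U4 Pool.Agent.Helper53.PB

theorem nbx_two {F V : Type} [Field F] [AddCommGroup V] [Module F V] [Finite F]
    [FiniteDimensional F V] {P : Polar F V} {U : Submodule F V} (N : Nb P U Bool)
    (p : Bool × ℙ F (Dual F U)) :
    finrank F (U ⊓ N.nb p : Submodule F V) + 1 = finrank F U := by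
  have h1 : (U ⊓ N.nb p : Submodule F V) = (LinearMap.ker p.2.rep).map U.subtype := by
    ext x
    constructor
    · rintro ⟨hx1, hx2⟩
      exact ⟨⟨x, hx1⟩, (N.inU p ⟨x, hx1⟩).1 hx2, rfl⟩
    · rintro ⟨u, hu, rfl⟩
      exact ⟨u.2, (N.inU p u).2 hu⟩
  have h2 : ¬ (⊤ : Submodule F U) ≤ LinearMap.ker p.2.rep := by
    intro h
    apply p.2.rep_nonzero
    ext x
    exact h (Submodule.mem_top (x := x))
  have h3 := Polar.finrank_inf_ker ⊤ p.2.rep h2
  rw [top_inf_eq, finrank_top] at h3
  rw [h1, Submodule.finrank_map_subtype_eq]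
  exact h3

theorem hNBX : StNBX := by
  intro F V _ _ _ _ _ φ r hs U hU N
  have hUr := hs.gen U hU
  refine ⟨?_, ?_⟩
  · intro W hW hWr
    have hWd := hs.gen W hW
    have h1 : ¬ W ≤ U := by
      intro h
      have h2 := hW.2 U hU.1 h
      rw [h2, inf_idem] at hWr
      omega
    obtain ⟨x, hxW, hxU⟩ := SetLike.not_le_iff_exists.1 h1
    obtain ⟨p, hp, _⟩ := N.out x (hW.1.1 x hxW) hxU
    refine ⟨p, ?_⟩
    have h3 : (U ⊓ W : Submodule F V) ≤ N.nb p := by
      rintro y ⟨hyU, hyW⟩
      exact (N.inU p ⟨y, hyU⟩).2 ((N.perp p x hp hxU ⟨y, hyU⟩).1 (hW.1.2 x hxW y hyW))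
    have h4 : (U ⊓ W : Submodule F V) < (U ⊓ W) ⊔ Submodule.span F {x} := by
      refine lt_of_le_of_ne le_sup_left ?_
      intro h
      apply hxU
      have h5 : x ∈ (U ⊓ W : Submodule F V) := by
        rw [h]
        exact Submodule.mem_sup_right (Submodule.mem_span_singleton_self x)
      exact h5.1
    have h6 := Submodule.finrank_lt_finrank_of_lt h4
    have h7 : (U ⊓ W) ⊔ Submodule.span F {x} ≤ N.nb p := by
      refine sup_le h3 ?_
      rw [Submodule.span_singleton_le_iff_mem]
      exact hp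
    have h8 : (U ⊓ W) ⊔ Submodule.span F {x} ≤ W := by
      refine sup_le inf_le_right ?_
      rw [Submodule.span_singleton_le_iff_mem]
      exact hxW
    have hNd := hs.gen _ (N.gen p)
    have h9 := Submodule.eq_of_le_of_finrank_le h7 (by omega)
    have h10 := Submodule.eq_of_le_of_finrank_le h8 (by omega)
    rw [← h9, h10]
  · intro p
    rw [nbx_two N p, hUr]

end Pool.Agent.Helper16.U4
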