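import Pool.Agent.Helper45.U4.St3

/-!
# Project U4, module PSH: push-forward to a residue
-/

set_option autoImplicit false

open Module Classical
open scoped LinearAlgebra.Projectivization

namespace Pool.Agent.Helper16.U4

open Pool.Agent.Helper45.U4 Pool.Agent.Helper53.PB

section
variable {F V V0 : Type} [Field F] [AddCommGroup V] [Module F V] [AddCommGroup V0] [Module F V0]
variable {P0 : Polar F V0} {P : Polar F V} {ι : V0 →ₗ[F] V} {R : ℙ F V} {w : V}

/-- the points other than `R` of the line `Q` -/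
noncomputable def lA [Finite V] (ι : V0 →ₗ[F] V) (v : V) (Q : ℙ F V0) : Finset (ℙ F V) :=
  pts (Submodule.span F {v} ⊔ Submodule.span F {ι Q.rep}) \ pts (Submodule.span F {v})

theorem mem_lA [Finite V] {y : ℙ F V} {Q : ℙ F V0} : y ∈ lA ι R.rep Q ↔
    y ≠ R ∧ ∃ a c : F, a ≠ 0 ∧ y.rep = a • ι Q.rep + c • R.rep := by
  unfold lA
  rw [pts_span, Finset.mem_sdiff, Finset.mem_singleton, mem_pts]
  constructor
  · rintro ⟨h1, h2⟩
    refine ⟨h2, ?_⟩
    obtain ⟨x, hx, z, hz, e⟩ := Submodule.mem_sup.1 h1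
    obtain ⟨c, rfl⟩ := Submodule.mem_span_singleton.1 hx
    obtain ⟨a, rfl⟩ := Submodule.mem_span_singleton.1 hz
    refine ⟨a, c, ?_, ?_⟩
    · rintro rfl
      apply h2
      apply eq_of_rep_mem_span
      rw [← e, zero_smul, add_zero]
      exact Submodule.smul_mem _ _ (Submodule.mem_span_singleton_self _)
    · rw [← e, add_comm]
  · rintro ⟨h2, a, c, ha, e⟩
    refine ⟨?_, h2⟩
    rw [e]
    exact Submodule.add_mem _
      (Submodule.smul_mem _ _ (Submodule.mem_sup_right (Submodule.mem_span_singleton_self _)))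
      (Submodule.smul_mem _ _ (Submodule.mem_sup_left (Submodule.mem_span_singleton_self _)))

theorem lA_perp [Finite V] (h : IsRes P0 P ι R.rep w) {y : ℙ F V} {Q : ℙ F V0}
    (hy : y ∈ lA ι R.rep Q) : P.f R.rep y.rep = 0 := by
  obtain ⟨_, a, c, _, e⟩ := mem_lA.1 hy
  rw [e, map_add, map_smul, map_smul, h.fv, P.sing_self _ h.sing_v, smul_zero, smul_zero,
    add_zero]

/-- every point of the perp of `R` other than `R` projects -/
theorem ex_proj (h : IsRes P0 P ι R.rep w) {x : ℙ F V} (hx : x ≠ R)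
    (hp : P.f R.rep x.rep = 0) : ∃ (Q : ℙ F V0) (b c : F), b ≠ 0 ∧
      ι Q.rep = b • x.rep + c • R.rep := by
  obtain ⟨u, hu⟩ := h.proj hp
  have hu0 : u ≠ 0 := by
    rintro rfl
    rw [map_zero] at hu
    apply hx
    apply eq_of_rep_mem_span
    rw [Submodule.mem_span_singleton]
    exact ⟨_, (sub_eq_zero.1 hu.symm).symm⟩
  obtain ⟨b, hb⟩ := Projectivization.exists_smul_eq_mk_rep F u hu0
  refine ⟨Projectivization.mk F u hu0, (b : F), -((b : F) * (P.f w x.rep / P.f w R.rep)),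
    b.ne_zero, ?_⟩
  rw [← hb, Units.smul_def, map_smul, hu, smul_sub, smul_smul, neg_smul, sub_eq_add_neg]

theorem inv_form {x A v : V} {b c : F} (hb : b ≠ 0) (e : A = b • x + c • v) :
    x = b⁻¹ • A + (-(b⁻¹ * c)) • v := by
  rw [e, smul_add, smul_smul, smul_smul, inv_mul_cancel₀ hb, one_smul, neg_smul,
    add_neg_cancel_right]

theorem sing_comb (h : IsRes P0 P ι R.rep w) {A : V} (hA : P.f A R.rep = 0) (hs : P.sing A)
    (b c : F) : P.sing (b • A + c • R.rep) := by
  apply P.sing_add _ _ (P.sing_smul _ _ hs) (P.sing_smul _ _ h.sing_v)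
  rw [map_smul, Polar.smul_left _ hA, smul_zero]

theorem bi_comb (h : IsRes P0 P ι R.rep w) {A B : V} (hAB : P.f A B = 0) (hA : P.f A R.rep = 0)
    (hB : P.f R.rep B = 0) (s t s' t' : F) :
    P.f (s • A + t • R.rep) (s' • B + t' • R.rep) = 0 := by
  have hR := P.sing_self _ h.sing_v
  rw [map_add, map_smul, map_smul,
    Polar.add_left (Polar.smul_left s hAB) (Polar.smul_left t hB),
    Polar.add_left (Polar.smul_left s hA) (Polar.smul_left t hR), smul_zero, smul_zero, add_zero]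

theorem mem_lift_iff (h : IsRes P0 P ι R.rep w) {x : V} {u : V0} {b c : F} (hb : b ≠ 0)
    (e : ι u = b • x + c • R.rep) (W0 : Submodule F V0) :
    x ∈ IsRes.lift ι R.rep W0 ↔ u ∈ W0 := by
  rw [IsRes.mem_lift]
  constructor
  · rintro ⟨u', hu', t, e'⟩
    have h1 : ι u = ι (b • u') + (b * t + c) • R.rep := by
      rw [e, e', smul_add, smul_smul, map_smul, add_smul, add_assoc]
    rw [(h.coef_zero h1).2]
    exact Submodule.smul_mem _ _ hu'
  · intro hu
    refine ⟨b⁻¹ • u, Submodule.smul_mem _ _ hu, -(b⁻¹ * c), ?_⟩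
    rw [map_smul]
    exact inv_form hb e

theorem sing_iff (h : IsRes P0 P ι R.rep w) {x : V} {u : V0} {b c : F} (hb : b ≠ 0)
    (hx : P.f R.rep x = 0) (e : ι u = b • x + c • R.rep) : P.sing x ↔ P0.sing u := by
  rw [h.sing]
  constructor
  · intro hs
    rw [e]
    exact sing_comb h (P.symm _ _ hx) hs _ _
  · intro hs
    rw [inv_form hb e]
    exact sing_comb h (P.symm _ _ (h.fv u)) hs _ _

theorem biUnion_lA [Finite V] [Finite V0] (h : IsRes P0 P ι R.rep w) (W0 : Submodule F V0) :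
    (pts W0).biUnion (lA ι R.rep) = (pts (IsRes.lift ι R.rep W0)).erase R := by
  ext y
  rw [Finset.mem_biUnion, Finset.mem_erase, mem_pts]
  constructor
  · rintro ⟨Q, hQ, hy⟩
    obtain ⟨hne, a, c, ha, e⟩ := mem_lA.1 hy
    refine ⟨hne, ?_⟩
    rw [e]
    refine Submodule.add_mem _ (Submodule.smul_mem _ _ ?_) (Submodule.smul_mem _ _ ?_)
    · exact Submodule.mem_sup_left ⟨Q.rep, mem_pts.1 hQ, rfl⟩
    · exact Submodule.mem_sup_right (Submodule.mem_span_singleton_self _)
  · rintro ⟨hne, hy⟩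
    have hp : P.f R.rep y.rep = 0 := by
      obtain ⟨u, _, c, e⟩ := IsRes.mem_lift.1 hy
      rw [e, map_add, map_smul, h.fv, P.sing_self _ h.sing_v, smul_zero, add_zero]
    obtain ⟨Q, b, c, hb, e⟩ := ex_proj h hne hp
    refine ⟨Q, mem_pts.2 ((mem_lift_iff h hb e W0).1 hy), ?_⟩
    exact mem_lA.2 ⟨hne, b⁻¹, -(b⁻¹ * c), inv_ne_zero hb, inv_form hb e⟩

theorem lA_disj [Finite V] (h : IsRes P0 P ι R.rep w) {y : ℙ F V} {Q Q' : ℙ F V0}
    (hy : y ∈ lA ι R.rep Q) (hy' : y ∈ lA ι R.rep Q') : Q = Q' := by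
  obtain ⟨_, a, c, ha, e⟩ := mem_lA.1 hy
  obtain ⟨_, a', c', ha', e'⟩ := mem_lA.1 hy'
  have h1 : ι Q.rep = ι ((a⁻¹ * a') • Q'.rep) + (a⁻¹ * c' + -(a⁻¹ * c)) • R.rep := by
    rw [inv_form ha e, e', map_smul, smul_add, smul_smul, smul_smul, add_smul, add_assoc]
  have h2 := (h.coef_zero h1).2
  apply eq_of_rep_mem_span
  rw [Submodule.mem_span_singleton]
  exact ⟨_, h2.symm⟩

theorem sum_lA [Finite V] [Finite V0] (h : IsRes P0 P ι R.rep w) (f : ℙ F V → ℤ)
    (W0 : Submodule F V0) :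
    tf (pu ι R.rep f) W0 + f R = tf f (IsRes.lift ι R.rep W0) := by
  have h1 : tf (pu ι R.rep f) W0 = ∑ y ∈ (pts W0).biUnion (lA ι R.rep), f y := by
    rw [Finset.sum_biUnion]
    · rfl
    · intro Q _ Q' _ hne
      rw [Function.onFun, Finset.disjoint_left]
      intro y hy hy'
      exact hne (lA_disj h hy hy')
  rw [h1, biUnion_lA h]
  unfold tf
  apply Finset.sum_erase_add
  rw [mem_pts]
  exact Submodule.mem_sup_right (Submodule.mem_span_singleton_self _)

end

theorem hPSH : StPSH := by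
  intro F V V0 _ _ _ _ _ _ _ _ _ _ P0 P ι R w h f hf
  refine ⟨?_, sum_lA h f, ?_, ?_, ?_, ?_, ?_⟩
  · intro Q hQ
    show ∑ y ∈ lA ι R.rep Q, f y = 0
    apply Finset.sum_eq_zero
    intro y hy
    apply hf
    intro hs
    apply hQ
    obtain ⟨_, a, c, ha, e⟩ := mem_lA.1 hy
    exact (sing_iff h (inv_ne_zero ha) (lA_perp h hy) (inv_form ha e)).1 hs
  · have h1 := sum_lA h f ⊤
    have h2 : tf (pu ι R.rep f) ⊤ = ∑ Q, pu ι R.rep f Q := by
      unfold tf
      apply Finset.sum_congr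
      · ext Q
        rw [mem_pts]
        simp
      · intro Q _
        rfl
    rw [← h2, h1]
    unfold tf nf
    apply Finset.sum_congr
    · ext y
      rw [mem_pts, Finset.mem_filter]
      constructor
      · intro hy
        obtain ⟨u, _, c, e⟩ := IsRes.mem_lift.1 hy
        refine ⟨Finset.mem_univ _, ?_⟩
        apply P.symm
        rw [e, map_add, map_smul, h.fv, P.sing_self _ h.sing_v, smul_zero, add_zero]
      · rintro ⟨_, hy⟩
        obtain ⟨u, hu⟩ := h.proj (P.symm _ _ hy)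
        rw [IsRes.mem_lift]
        exact ⟨u, Submodule.mem_top, P.f w y.rep / P.f w R.rep, by rw [hu, sub_add_cancel]⟩
    · intro y _
      rfl
  · intro h0 Q
    exact Finset.sum_nonneg fun y _ => h0 y
  · intro x hx hp
    obtain ⟨Q, b, c, hb, e⟩ := ex_proj h hx hp
    exact ⟨Q, b, c, hb, e⟩
  · rintro x Q hp ⟨b, c, hb, e⟩
    exact ⟨fun W0 => mem_lift_iff h hb e W0, sing_iff h hb hp e⟩
  · rintro x x' Q Q' hp hp' ⟨b, c, hb, e⟩ ⟨b', c', hb', e'⟩
    rw [h.perp]
    constructor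
    · intro h0
      rw [inv_form hb e, inv_form hb' e']
      exact bi_comb h h0 (P.symm _ _ (h.fv _)) (h.fv _) _ _ _ _
    · intro h0
      rw [e, e']
      exact bi_comb h h0 (P.symm _ _ hp) hp' _ _ _ _

end Pool.Agent.Helper16.U4
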